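import Pool.Agent.Run7.h358.PL.Iface
import Pool.Agent.N75.LCBR

set_option autoImplicit false

/-!
# Piece BRG of the interface PL (helper358): from words to multilinear forms
-/

open Module

noncomputable section

namespace Pool.Agent.Run7.h862.PL.BRG

open Pool.Agent.Run7.h358.PL
open Pool.Agent.N208.LC (Kil PrB)
open Pool.Agent.N75.LCBR (Psi Psi_apply)

variable {X T U ι V : Type} [AddCommGroup V] [Module ℂ V] [DecidableEq X]
  [Fintype T] [DecidableEq T] [Fintype U] [DecidableEq U] [Fintype ι] [DecidableEq ι]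

omit [Fintype T] [DecidableEq T] [Fintype U] [DecidableEq U] [Fintype ι] in
theorem upd (e : Basis (Lt T U) ℂ V) (I : ι → Lt T U) (k : ι) (z : Lt T U) :
    Function.update (fun k => e (I k)) k (e z) = fun j => e (Function.update I k z j) := by
  funext j
  by_cases h : j = k
  · subst h
    rw [Function.update_self, Function.update_self]
  · rw [Function.update_of_ne h, Function.update_of_ne h]

/-- a diagonal operator -/
theorem diag (e : Basis (Lt T U) ℂ V) (op : Module.End ℂ V) (co : Lt T U → ℂ)
    (h : ∀ y, op (e y) = co y • e y) (ψ : MultilinearMap ℂ (fun _ : ι => V) ℂ) (hk : Kil op ψ)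
    (I : ι → Lt T U) (hI : ψ (fun k => e (I k)) ≠ 0) : ∑ k, co (I k) = 0 := by
  have h1 := hk (fun k => e (I k))
  have h2 : ∀ j : ι, ψ (Function.update (fun k => e (I k)) j (op (e (I j)))) =
      co (I j) * ψ (fun k => e (I k)) := by
    intro j
    rw [h, MultilinearMap.map_update_smul, smul_eq_mul, upd, Function.update_eq_self]
  rw [Finset.sum_congr rfl fun j _ => h2 j, ← Finset.sum_mul] at h1
  rcases mul_eq_zero.1 h1 with h3 | h3
  · exact h3
  · exact absurd h3 hI

/-- the multilinear form with given values on the basis -/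
def Mp (e : Basis (Lt T U) ℂ V) :
    ((ι → Lt T U) → ℂ) →ₗ[ℂ] MultilinearMap ℂ (fun _ : ι => V) ℂ :=
  Fintype.linearCombination ℂ fun I : ι → Lt T U =>
    (MultilinearMap.mkPiAlgebra ℂ ι ℂ).compLinearMap fun k => e.coord (I k)

theorem Mp_apply (e : Basis (Lt T U) ℂ V) (G : (ι → Lt T U) → ℂ) (J : ι → Lt T U) :
    Mp e G (fun k => e (J k)) = G J := by
  unfold Mp
  rw [Fintype.linearCombination_apply, MultilinearMap.sum_apply, Finset.sum_eq_single J]
  · rw [MultilinearMap.smul_apply, MultilinearMap.compLinearMap_apply,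
      MultilinearMap.mkPiAlgebra_apply]
    simp
  · intro I _ hI
    rw [MultilinearMap.smul_apply, MultilinearMap.compLinearMap_apply,
      MultilinearMap.mkPiAlgebra_apply]
    obtain ⟨k, hk⟩ := Function.ne_iff.1 hI
    rw [Finset.prod_eq_zero (Finset.mem_univ k), smul_zero]
    rw [Basis.coord_apply, Basis.repr_self, Finsupp.single_apply, if_neg (Ne.symm hk)]
  · exact fun h => absurd (Finset.mem_univ _) h

theorem card_of_sum (P Q : Lt T U → Prop) [DecidablePred P] [DecidablePred Q] (I : ι → Lt T U)
    (h : ∑ k, ((if P (I k) then (1 : ℂ) else 0) - if Q (I k) then 1 else 0) = 0) :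
    (Finset.univ.filter fun k => P (I k)).card = (Finset.univ.filter fun k => Q (I k)).card := by
  rw [Finset.sum_sub_distrib, Finset.sum_boole, Finset.sum_boole, sub_eq_zero] at h
  exact_mod_cast h

omit [Fintype T] [DecidableEq T] [Fintype U] [DecidableEq U] in
theorem opM_basis (e : Basis (Lt T U) ℂ V) (bar : X → X) (cT : T → X) (x : X)
    (m : Matrix (Fin 2) (Fin 2) ℂ) (p : Fin 2) (t : T) : opM e bar cT x m (e (Sum.inl (p, t))) =
      if cT t = x ∨ cT t = bar x then ∑ q, m q p • e (Sum.inl (q, t)) else 0 := by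
  unfold opM; rw [Basis.constr_basis]

omit [Fintype T] [DecidableEq T] [Fintype U] [DecidableEq U] in
theorem opM_basis' (e : Basis (Lt T U) ℂ V) (bar : X → X) (cT : T → X) (x : X)
    (m : Matrix (Fin 2) (Fin 2) ℂ) (u : U) : opM e bar cT x m (e (Sum.inr u)) = 0 := by
  unfold opM; rw [Basis.constr_basis]

theorem inv (bar : X → X) (cT : T → X) (cU : U → X) (e : Basis (Lt T U) ℂ V)
    (ψ : MultilinearMap ℂ (fun _ : ι => V) ℂ)
    (hM : ∀ x a, a.trace = 0 → Kil (opM e bar cT x a) ψ)
    (hT : ∀ x, Kil (opT e bar cT x) ψ) (hU : ∀ x, Kil (opU e bar cU x) ψ) :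
    InvW bar cT cU (fun I => ψ (fun k => e (I k))) := by
  refine ⟨fun I hI x => ?_, fun I hI x => ?_, fun I hI x => ?_, fun x p q hpq I => ?_⟩
  · refine card_of_sum _ _ I (diag e (opT e bar cT x)
      (fun y => (if ColT cT x y then (1 : ℂ) else 0) - if ColT cT (bar x) y then 1 else 0) ?_ ψ (hT x) I hI)
    rintro (⟨p, t⟩ | u)
    · unfold opT; rw [Basis.constr_basis]; rfl
    · unfold opT; rw [Basis.constr_basis]
      simp only [ColT, if_false, sub_self, zero_smul]
  · refine card_of_sum _ _ I (diag e (opU e bar cU x)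
      (fun y => (if ColU cU x y then (1 : ℂ) else 0) - if ColU cU (bar x) y then 1 else 0) ?_ ψ (hU x) I hI)
    rintro (⟨p, t⟩ | u)
    · unfold opU; rw [Basis.constr_basis]
      simp only [ColU, if_false, sub_self, zero_smul]
    · unfold opU; rw [Basis.constr_basis]; rfl
  · refine card_of_sum _ _ I (diag e (opM e bar cT x (Matrix.of ![![1, 0], ![0, -1]]))
      (fun y => (if AtT bar cT 0 x y then (1 : ℂ) else 0) - if AtT bar cT 1 x y then 1 else 0) ?_ ψ
      (hM x _ (by simp [Matrix.trace])) I hI)
    rintro (⟨p, t⟩ | u)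
    · rw [opM_basis]
      by_cases hc : cT t = x ∨ cT t = bar x
      · rw [if_pos hc, Fin.sum_univ_two]
        fin_cases p <;> simp [AtT, hc]
      · rw [if_neg hc]
        simp [AtT, hc]
    · rw [opM_basis']
      simp only [AtT, if_false, sub_self, zero_smul]
  · have h1 := hM x (Matrix.of fun i j => if i = q ∧ j = p then (1 : ℂ) else 0) (by
      rw [Matrix.trace]
      apply Finset.sum_eq_zero
      intro j _
      rw [Matrix.diag_apply, Matrix.of_apply]
      exact if_neg fun h => hpq (h.2.symm.trans h.1)) (fun k => e (I k))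
    have hop : ∀ y : Lt T U, opM e bar cT x (Matrix.of fun i j => if i = q ∧ j = p then (1 : ℂ) else 0) (e y) =
        if AtT bar cT p x y then e (mv q y) else 0 := by
      rintro (⟨p', t⟩ | u)
      · rw [opM_basis]
        by_cases hc : cT t = x ∨ cT t = bar x
        · rw [if_pos hc]
          by_cases hp : p' = p
          · subst hp
            have : AtT (U := U) bar cT p' x (Sum.inl (p', t)) := ⟨rfl, hc⟩
            rw [if_pos this, Finset.sum_eq_single q]
            · rw [Matrix.of_apply, if_pos ⟨rfl, rfl⟩, one_smul]; rfl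
            · intro j _ hj
              rw [Matrix.of_apply, if_neg (fun h => hj h.1), zero_smul]
            · exact fun h => absurd (Finset.mem_univ _) h
          · have : ¬ AtT (U := U) bar cT p x (Sum.inl (p', t)) := fun h => hp h.1
            rw [if_neg this]
            apply Finset.sum_eq_zero
            intro j _
            rw [Matrix.of_apply, if_neg (fun h => hp h.2), zero_smul]
        · have : ¬ AtT (U := U) bar cT p x (Sum.inl (p', t)) := fun h => hc h.2
          rw [if_neg hc, if_neg this]
      · rw [opM_basis']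
        have : ¬ AtT (U := U) bar cT p x (Sum.inr u) := fun h => h
        rw [if_neg this]
    have h2 : ∀ j : ι, ψ (Function.update (fun k => e (I k)) j (opM e bar cT x
        (Matrix.of fun i j => if i = q ∧ j = p then (1 : ℂ) else 0) (e (I j)))) =
        if AtT bar cT p x (I j) then
          ψ (fun k => e (Function.update I j (mv q (I j)) k)) else 0 := by
      intro j
      rw [hop]
      split_ifs
      · rw [upd]
      · exact MultilinearMap.map_update_zero _ _ _
    rw [Finset.sum_congr rfl fun j _ => h2 j] at h1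
    rw [Finset.sum_filter]
    exact h1

theorem main : S_WORD → S_BRG := by
  intro hC V X T U ι _ _ _ _ _ _ _ _ _ bar cT cU e m hbar hfix hc ψ hM hT hU
  have hI := inv bar cT cU e ψ hM hT hU
  have h1 := hC ι X T U m bar cT cU hc hbar hfix _ hI
  have h2 : Mp e (fun I => ψ (fun k => e (I k))) = ψ := by
    refine Basis.ext_multilinear (fun _ => e) fun J => ?_
    exact Mp_apply e _ J
  rw [← h2]
  have h3 := Submodule.mem_map_of_mem (f := Mp (ι := ι) e) h1
  rw [Submodule.map_span] at h3
  refine Submodule.span_mono ?_ h3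
  rintro _ ⟨G, ⟨ε, d, hd, hG⟩, rfl⟩
  refine ⟨ε, fun i => e.constr ℂ fun x => e.constr ℂ fun y => d i x y, ?_, ?_⟩
  · intro i
    refine ⟨d i, hd i, fun x y => ?_⟩
    rw [Basis.constr_basis, Basis.constr_basis]
  · intro v
    rw [← Psi_apply]
    congr 1
    refine Basis.ext_multilinear (fun _ => e) fun J => ?_
    rw [Mp_apply, Psi_apply, hG]
    refine Finset.prod_congr rfl fun i _ => ?_
    rw [Basis.constr_basis, Basis.constr_basis]

end Pool.Agent.Run7.h862.PL.BRG
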