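import Pool.Agent.Run7.h358.PL.Iface

set_option autoImplicit false

/-!
# Piece PI of the interface PL (helper358): primitive idempotents of the centre
-/

open Module

noncomputable section

namespace Pool.Agent.Run7.h862.PL.PI

open Pool.Agent.Run7.h358.PL

/-- primitive idempotents of a reduced finite dimensional commutative algebra with an involution -/
theorem core (R : Type) [CommRing R] [Algebra ℂ R] [IsArtinianRing R] [Algebra.IsIntegral ℂ R] [IsReduced R]
    (σ : R →+* R) (hσ : ∀ r, σ (σ r) = r) :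
    ∃ (X : Type) (_ : Fintype X) (_ : DecidableEq X) (bar : X → X) (π : X → R) (χ : X → R → ℂ),
      (∀ x, bar (bar x) = x) ∧ (∀ x, π x ≠ 0) ∧ (∀ x y, π x * π y = if x = y then π x else 0) ∧
      ∑ x, π x = 1 ∧ (∀ x, σ (π x) = π (bar x)) ∧ ∀ x z, z * π x = χ x z • π x := by
  classical
  set Φ := IsArtinianRing.equivPi R with hΦ
  let _ : Fintype (MaximalSpectrum R) := Fintype.ofFinite _
  have hap : ∀ (z : R) (J : MaximalSpectrum R), Φ z J = Ideal.Quotient.mk J.asIdeal z := fun z J => rfl
  have hinj : ∀ z w : R, (∀ J : MaximalSpectrum R, Ideal.Quotient.mk J.asIdeal z = Ideal.Quotient.mk J.asIdeal w) →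
      z = w := by
    intro z w h
    apply Φ.injective
    funext J
    exact h J
  obtain ⟨π, hπ⟩ : ∃ π : MaximalSpectrum R → R, ∀ I J : MaximalSpectrum R,
      Ideal.Quotient.mk J.asIdeal (π I) = if I = J then 1 else 0 := by
    refine ⟨fun I => Φ.symm (Pi.single I 1), fun I J => ?_⟩
    rw [← hap, AlgEquiv.apply_symm_apply]
    by_cases h : I = J
    · subst h; simp
    · rw [if_neg h, Pi.single_eq_of_ne (Ne.symm h)]
  have hsur : Function.Surjective σ := fun r => ⟨σ r, hσ r⟩
  set bar : MaximalSpectrum R → MaximalSpectrum R := fun I =>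
    ⟨I.asIdeal.comap σ, by
      have := I.isMaximal
      exact Ideal.comap_isMaximal_of_surjective σ hsur⟩ with hbar
  have hmem : ∀ (I : MaximalSpectrum R) (z : R), z ∈ (bar I).asIdeal ↔ σ z ∈ I.asIdeal := fun I z => Iff.rfl
  have hbb : ∀ I, bar (bar I) = I := by
    intro I
    apply MaximalSpectrum.ext
    ext z
    rw [hmem, hmem, hσ]
  have hnt : ∀ J : MaximalSpectrum R, Nontrivial (R ⧸ J.asIdeal) := fun J =>
    Ideal.Quotient.nontrivial_iff.2 J.isMaximal.ne_top
  have hchi : ∀ (J : MaximalSpectrum R) (z : R), ∃ c : ℂ,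
      Ideal.Quotient.mk J.asIdeal (algebraMap ℂ R c) = Ideal.Quotient.mk J.asIdeal z := by
    intro J z
    have := J.isMaximal
    have : IsDomain (R ⧸ J.asIdeal) := Ideal.Quotient.isDomain _
    have : Algebra.IsIntegral ℂ (R ⧸ J.asIdeal) := by
      refine Algebra.IsIntegral.of_surjective (Ideal.Quotient.mkₐ ℂ J.asIdeal) (Ideal.Quotient.mkₐ_surjective ℂ _)
    obtain ⟨c, hc⟩ := (IsAlgClosed.algebraMap_bijective_of_isIntegral (k := ℂ) (K := R ⧸ J.asIdeal)).2
      (Ideal.Quotient.mk J.asIdeal z)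
    exact ⟨c, hc⟩
  choose χ hχ using hchi
  refine ⟨MaximalSpectrum R, inferInstance, inferInstance, bar, π, χ, hbb, ?_, ?_, ?_, ?_, ?_⟩
  · intro x h
    have h1 := hπ x x
    rw [h, map_zero, if_pos rfl] at h1
    have := hnt x
    exact zero_ne_one h1
  · intro x y
    apply hinj
    intro J
    rw [map_mul, hπ, hπ]
    by_cases hxy : x = y
    · subst hxy
      rw [if_pos rfl, hπ]
      split_ifs <;> simp
    · rw [if_neg hxy, map_zero]
      by_cases hx : x = J
      · rw [if_neg (show ¬ y = J from fun h => hxy (hx.trans h.symm)), mul_zero]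
      · rw [if_neg hx, zero_mul]
  · apply hinj
    intro J
    rw [map_sum, map_one, Finset.sum_congr rfl fun x _ => hπ x J]
    rw [Finset.sum_ite_eq' Finset.univ J fun _ => (1 : R ⧸ J.asIdeal)]
    simp
  · intro x
    apply hinj
    intro J
    rw [hπ]
    by_cases h : bar x = J
    · subst h
      rw [if_pos rfl]
      have h1 : π x - 1 ∈ x.asIdeal := by
        rw [← Ideal.Quotient.eq_zero_iff_mem, map_sub, hπ, if_pos rfl, map_one, sub_self]
      have h2 : σ (π x) - 1 ∈ (bar x).asIdeal := by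
        rw [hmem, map_sub, hσ, map_one]; exact h1
      have h3 := Ideal.Quotient.eq_zero_iff_mem.2 h2
      rw [map_sub, map_one, sub_eq_zero] at h3
      exact h3
    · rw [if_neg h]
      rw [Ideal.Quotient.eq_zero_iff_mem]
      rw [← hmem, ← Ideal.Quotient.eq_zero_iff_mem, hπ, if_neg]
      intro h'
      exact h (by rw [h', hbb])
  · intro x z
    apply hinj
    intro J
    rw [Algebra.smul_def, map_mul, map_mul, hπ]
    by_cases h : x = J
    · subst h
      rw [hχ]
    · rw [if_neg h, mul_zero, mul_zero]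

theorem main : S_PI := by
  intro V _ _ _ ω E B hA
  classical
  -- products
  have hE1 : (1 : Module.End ℂ V) ∈ E := (hA.commE 1).2 fun X _ => by rw [mul_one, one_mul]
  have hB1 : (1 : Module.End ℂ V) ∈ B := (hA.commB 1).2 fun X _ => by rw [mul_one, one_mul]
  have hEm : ∀ P Q, P ∈ E → Q ∈ E → P * Q ∈ E := by
    intro P Q hP hQ
    rw [hA.commE] at hP hQ ⊢
    intro X hX
    rw [← mul_assoc, hP X hX, mul_assoc, hQ X hX, mul_assoc]
  have hBm : ∀ P Q, P ∈ B → Q ∈ B → P * Q ∈ B := by
    intro P Q hP hQ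
    rw [hA.commB] at hP hQ ⊢
    intro X hX
    rw [mul_assoc, hQ X hX, ← mul_assoc, hP X hX, mul_assoc]
  -- adjoints
  have huniq : ∀ P Q : Module.End ℂ V, (∀ u v, ω u (P v) = ω u (Q v)) → P = Q := by
    intro P Q h
    ext v
    rw [← sub_eq_zero]
    apply hA.nondeg
    intro u
    rw [hA.alt, map_sub, h, sub_self, neg_zero]
  have hswap : ∀ X X' : Module.End ℂ V, (∀ u v, ω (X u) v = ω u (X' v)) → ∀ u v, ω (X' u) v = ω u (X v) := by
    intro X X' h u v
    rw [hA.alt, ← h, hA.alt, neg_neg]
  have hadjBE : ∀ z ∈ B, z ∈ E → ∃ z', (z' ∈ B ∧ z' ∈ E) ∧ ∀ u v, ω (z u) v = ω u (z' v) := by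
    intro z hzB hzE
    obtain ⟨z', hz'B, hz'⟩ := hA.adjB z hzB
    refine ⟨z', ⟨hz'B, ?_⟩, hz'⟩
    rw [hA.commE]
    intro X hX
    obtain ⟨X', hX'B, hX'⟩ := hA.adjB X hX
    have h2 := hswap X X' hX'
    have hc : X' * z = z * X' := (hA.commE z).1 hzE X' hX'B
    apply huniq
    intro u v
    change ω u (X (z' v)) = ω u (z' (X v))
    rw [← h2, ← hz', ← hz', ← h2]
    have := LinearMap.congr_fun hc u
    change X' (z u) = z (X' u) at this
    rw [this]
  let R : Subalgebra ℂ (Module.End ℂ V) :=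
    { carrier := {z | z ∈ B ∧ z ∈ E}
      mul_mem' := fun h h' => ⟨hBm _ _ h.1 h'.1, hEm _ _ h.2 h'.2⟩
      one_mem' := ⟨hB1, hE1⟩
      add_mem' := fun h h' => ⟨B.add_mem h.1 h'.1, E.add_mem h.2 h'.2⟩
      zero_mem' := ⟨B.zero_mem, E.zero_mem⟩
      algebraMap_mem' := fun c => by
        rw [Algebra.algebraMap_eq_smul_one]
        exact ⟨B.smul_mem c hB1, E.smul_mem c hE1⟩ }
  have hRm : ∀ z, z ∈ R ↔ z ∈ B ∧ z ∈ E := fun z => Iff.rfl
  let iC : CommRing R :=
    { (inferInstance : Ring R) with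
      mul_comm := fun a b => Subtype.ext ((hA.commE b.1).1 b.2.2 a.1 a.2.1) }
  have hfin : FiniteDimensional ℂ R := inferInstanceAs (FiniteDimensional ℂ (Subalgebra.toSubmodule R))
  have hart : IsArtinianRing R := IsArtinianRing.of_finite ℂ R
  have hint : Algebra.IsIntegral ℂ R := Algebra.IsIntegral.of_finite ℂ R
  -- reduced
  have hsq : ∀ z : R, z * z = 0 → z = 0 := by
    intro z hz
    have hz2 : ∀ v, z.1 (z.1 v) = 0 := by
      intro v
      have := congrArg Subtype.val hz
      exact LinearMap.congr_fun this v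
    obtain ⟨U', hU', hc⟩ := hA.semi (LinearMap.ker z.1) (by
      intro X hX u hu
      rw [LinearMap.mem_ker] at hu ⊢
      have hc : X * z.1 = z.1 * X := (hA.commE z.1).1 z.2.2 X hX
      have := LinearMap.congr_fun hc u
      change X (z.1 u) = z.1 (X u) at this
      rw [← this, hu, map_zero])
    have hU0 : ∀ u ∈ U', z.1 u = 0 := by
      intro u hu
      have h1 : z.1 u ∈ U' := hU' z.1 z.2.1 u hu
      have h2 : z.1 u ∈ LinearMap.ker z.1 := LinearMap.mem_ker.2 (hz2 u)
      have := Submodule.disjoint_def.1 hc.disjoint (z.1 u) h2 h1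
      exact this
    apply Subtype.ext
    ext v
    obtain ⟨a, ha, b, hb, rfl⟩ := Submodule.mem_sup.1 (show v ∈ LinearMap.ker z.1 ⊔ U' by
      rw [hc.sup_eq_top]; trivial)
    change z.1 (a + b) = 0
    rw [map_add, LinearMap.mem_ker.1 ha, hU0 b hb, add_zero]
  have hred : IsReduced R := by
    refine (isReduced_iff_pow_one_lt 2 one_lt_two).2 fun x hx => hsq x ?_
    rw [← sq]; exact hx
  -- the involution
  choose ad had1 had2 using fun z : R => hadjBE z.1 z.2.1 z.2.2
  let σ : R →+* R :=
    { toFun := fun z => ⟨ad z, had1 z⟩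
      map_one' := by
        apply Subtype.ext
        apply huniq
        intro u v
        rw [← had2]; rfl
      map_mul' := fun z w => by
        apply Subtype.ext
        apply huniq
        intro u v
        change ω u (ad (z * w) v) = ω u (ad z (ad w v))
        rw [← had2, ← had2, ← had2, mul_comm z w]
        rfl
      map_zero' := by
        apply Subtype.ext
        apply huniq
        intro u v
        rw [← had2]
        change ω ((0 : Module.End ℂ V) u) v = ω u ((0 : Module.End ℂ V) v)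
        simp
      map_add' := fun z w => by
        apply Subtype.ext
        apply huniq
        intro u v
        change ω u (ad (z + w) v) = ω u (ad z v + ad w v)
        rw [← had2, map_add, ← had2, ← had2]
        change ω (z.1 u + w.1 u) v = _
        rw [map_add, LinearMap.add_apply] }
  have hσ : ∀ r, σ (σ r) = r := by
    intro r
    apply Subtype.ext
    apply huniq
    intro u v
    change ω u (ad (σ r) v) = _
    rw [← had2]
    exact hswap r.1 (σ r).1 (had2 r) u v
  obtain ⟨X, iX, iX', bar, π, χ, h1, h2, h3, h4, h5, h6⟩ := core R σ hσ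
  refine ⟨X, iX, iX', bar, fun x => (π x).1, fun x z => if hz : z ∈ R then χ x ⟨z, hz⟩ else 0, ?_⟩
  refine ⟨h1, fun x => (π x).2.1, fun x => (π x).2.2, fun x h => h2 x (Subtype.ext h), fun x y => ?_, ?_,
    fun x u v => ?_, fun z hz hz' x => ?_⟩
  · have := congrArg Subtype.val (h3 x y)
    rw [show (π x).1 * (π y).1 = (π x * π y : R).1 from rfl, this]
    split_ifs <;> rfl
  · have := congrArg Subtype.val h4
    rw [← (show (1 : R).1 = (1 : Module.End ℂ V) from rfl), ← this]
    exact (map_sum R.val π Finset.univ).symm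
  · rw [← h5]
    exact had2 (π x) u v
  · have hzR : z ∈ R := ⟨hz, hz'⟩
    have := congrArg Subtype.val (h6 x ⟨z, hzR⟩)
    rw [dif_pos hzR]
    exact this

end Pool.Agent.Run7.h862.PL.PI
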