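import Pool.Agent.Run7.h358.PL.Iface

set_option autoImplicit false

/-!
# Piece WORD of the interface PL (helper358): invariant functions of words
-/

open Module

noncomputable section

namespace Pool.Agent.Run7.h862.PL.WORD

open Pool.Agent.Run7.h358.PL

variable {ι X T U : Type}

/-- the word of the type `τ` with the positions `a` -/
def w (τ : ι → T ⊕ U) (a : ι → Fin 2) (k : ι) : Lt T U := Sum.map (fun t => (a k, t)) id (τ k)

/-- the type of a letter -/
def ty (y : Lt T U) : T ⊕ U := Sum.map Prod.snd id y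

/-- the position of a letter -/
def ps (y : Lt T U) : Fin 2 := Sum.elim Prod.fst (fun _ => 0) y

theorem w_ty_ps (I : ι → Lt T U) : w (fun k => ty (I k)) (fun k => ps (I k)) = I := by
  funext k
  simp only [w, ty, ps]
  rcases I k with ⟨p, t⟩ | u <;> rfl

theorem AtT_w (bar : X → X) (cT : T → X) (cU : U → X) (τ : ι → T ⊕ U) (a : ι → Fin 2) (p : Fin 2) (x : X)
    (k : ι) : AtT bar cT p x (w τ a k) ↔
      (τ k).isLeft = true ∧ a k = p ∧ (Sum.elim cT cU (τ k) = x ∨ Sum.elim cT cU (τ k) = bar x) := by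
  unfold w
  rcases τ k with t | u <;> simp [AtT]

theorem ColT_w (cT : T → X) (cU : U → X) (τ : ι → T ⊕ U) (a : ι → Fin 2) (x : X) (k : ι) :
    ColT cT x (w τ a k) ↔ (τ k).isLeft = true ∧ Sum.elim cT cU (τ k) = x := by
  unfold w
  rcases τ k with t | u <;> simp [ColT]

theorem ColU_w (cT : T → X) (cU : U → X) (τ : ι → T ⊕ U) (a : ι → Fin 2) (x : X) (k : ι) :
    ColU cU x (w τ a k) ↔ ¬ (τ k).isLeft = true ∧ Sum.elim cT cU (τ k) = x := by
  unfold w
  rcases τ k with t | u <;> simp [ColU]

theorem w_upd [DecidableEq ι] (τ : ι → T ⊕ U) (a : ι → Fin 2) (q : Fin 2) (k : ι) (hk : (τ k).isLeft = true) :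
    w τ (Function.update a k q) = Function.update (w τ a) k (mv q (w τ a k)) := by
  funext j
  by_cases h : j = k
  · subst h
    rw [Function.update_self]
    unfold w
    rw [Function.update_self]
    rcases hj : τ j with t | u
    · rfl
    · rw [hj] at hk; simp at hk
  · rw [Function.update_of_ne h]
    unfold w
    rw [Function.update_of_ne h]

theorem sym_iff (bar : X → X) (hb : ∀ x, bar (bar x) = x) (x y : X) :
    s(x, bar x) = s(y, bar y) ↔ x = y ∨ x = bar y := by
  rw [Sym2.eq_iff]
  constructor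
  · rintro (⟨h, _⟩ | ⟨h, _⟩)
    · exact Or.inl h
    · exact Or.inr h
  · rintro (h | h)
    · exact Or.inl ⟨h, by rw [h]⟩
    · exact Or.inr ⟨h, by rw [h, hb]⟩

/-- the contraction for two types -/
def dd [DecidableEq T] [DecidableEq U] : T ⊕ U → T ⊕ U → Lt T U → Lt T U → ℂ
  | Sum.inl t, Sum.inl t' => dlT t t'
  | Sum.inr u, Sum.inr u' => dlU u u'
  | _, _ => fun _ _ => 0

theorem dd_ne [DecidableEq T] [DecidableEq U] (s s' : T ⊕ U) (y y' : Lt T U) (h : ty y ≠ s ∨ ty y' ≠ s') :
    dd s s' y y' = 0 := by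
  rcases s with t | u <;> rcases s' with t' | u' <;> rcases y with ⟨p, r⟩ | v <;> rcases y' with ⟨p', r'⟩ | v' <;>
    simp only [dd, dlT, dlU]
  · refine if_neg fun hh => ?_
    rcases h with h | h
    · exact h (by simp [ty, hh.1])
    · exact h (by simp [ty, hh.2])
  · refine if_neg fun hh => ?_
    rcases h with h | h
    · exact h (by simp [ty, hh.1])
    · exact h (by simp [ty, hh.2])

theorem dd_T [DecidableEq T] [DecidableEq U] (s s' : T ⊕ U) (y y' : Lt T U) (h : ty y = s) (h' : ty y' = s')
    (hs : s.isLeft = true) (hs' : s'.isLeft = true) : dd s s' y y' = ep (ps y) (ps y') := by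
  rcases y with ⟨p, r⟩ | v <;> rcases y' with ⟨p', r'⟩ | v'
  · rw [← h, ← h']
    simp [ty, dd, dlT, ps]
  · rw [← h'] at hs'; simp [ty] at hs'
  · rw [← h] at hs; simp [ty] at hs
  · rw [← h] at hs; simp [ty] at hs

theorem dd_U [DecidableEq T] [DecidableEq U] (s s' : T ⊕ U) (y y' : Lt T U) (h : ty y = s) (h' : ty y' = s')
    (hs : ¬ s.isLeft = true) (hs' : ¬ s'.isLeft = true) : dd s s' y y' = 1 := by
  rcases y with ⟨p, r⟩ | v <;> rcases y' with ⟨p', r'⟩ | v'
  · rw [← h] at hs; simp [ty] at hs
  · rw [← h] at hs; simp [ty] at hs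
  · rw [← h'] at hs'; simp [ty] at hs'
  · rw [← h, ← h']
    simp only [ty, Sum.map_inr, dd, dlU]
    exact if_pos ⟨rfl, rfl⟩

/-- the linear map from functions of positions to functions of words -/
def Phi [Fintype ι] [DecidableEq T] [DecidableEq U] (τ : ι → T ⊕ U) :
    ((ι → Fin 2) → ℂ) →ₗ[ℂ] ((ι → Lt T U) → ℂ) where
  toFun g I := if (fun k => ty (I k)) = τ then g (fun k => ps (I k)) else 0
  map_add' g h := by
    funext I
    simp only [Pi.add_apply]
    split_ifs <;> simp
  map_smul' c g := by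
    funext I
    simp only [Pi.smul_apply, RingHom.id_apply]
    split_ifs <;> simp

theorem mem_supp {l : List (ι × ι)} {p : ι × ι} (hp : p ∈ l) : p.1 ∈ supp l ∧ p.2 ∈ supp l := by
  unfold supp
  constructor <;> refine List.mem_flatMap.2 ⟨p, hp, ?_⟩ <;> simp

theorem of_mem_supp {l : List (ι × ι)} {k : ι} (hk : k ∈ supp l) : ∃ p ∈ l, k = p.1 ∨ k = p.2 := by
  unfold supp at hk
  obtain ⟨p, hp, h⟩ := List.mem_flatMap.1 hk
  exact ⟨p, hp, by simpa using h⟩

theorem main : S_SL2 → S_REP → S_LIN → S_EQV → S_WORD := by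
  intro hSL hREP hLIN hEQV ι X T U _ _ _ _ _ _ _ m bar cT cU hcard hbar hfix F hF
  set N : Submodule ℂ ((ι → Lt T U) → ℂ) := Submodule.span ℂ {G : (ι → Lt T U) → ℂ | ∃ (e : Fin m × Fin 2 ≃ ι)
    (d : Fin m → Lt T U → Lt T U → ℂ), (∀ i, IsDl bar cT cU (d i)) ∧
    ∀ I, G I = ∏ i, d i (I (e (i, 0))) (I (e (i, 1)))} with hN
  -- decomposition by types
  have hsum : F = ∑ τ : ι → T ⊕ U, Phi τ (fun a => F (w τ a)) := by
    funext I
    rw [Finset.sum_apply, Finset.sum_eq_single (fun k => ty (I k))]
    · change F I = if _ then _ else _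
      rw [if_pos rfl, w_ty_ps]
    · intro τ _ hτ
      change (if _ then _ else _) = (0 : ℂ)
      exact if_neg fun h => hτ h.symm
    · exact fun h => absurd (Finset.mem_univ _) h
  rw [hsum]
  refine Submodule.sum_mem _ fun τ _ => ?_
  set f : (ι → Fin 2) → ℂ := fun a => F (w τ a) with hf
  by_cases hf0 : f = 0
  · rw [hf0, map_zero]; exact Submodule.zero_mem _
  obtain ⟨a0, ha0⟩ : ∃ a, f a ≠ 0 := Function.ne_iff.1 hf0
  set c : ι → X := fun k => Sum.elim cT cU (τ k) with hc
  set S : Finset ι := Finset.univ.filter fun k => (τ k).isLeft = true with hS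
  have hmS : ∀ k, k ∈ S ↔ (τ k).isLeft = true := fun k => by rw [hS]; simp
  clear_value S
  -- places
  have hset : ∀ (a : ι → Fin 2) (p : Fin 2) (k0 : ι),
      (S.filter fun k => a k = p ∧ s(c k, bar (c k)) = s(c k0, bar (c k0))) =
        Finset.univ.filter fun k => AtT bar cT p (c k0) (w τ a k) := by
    intro a p k0
    ext k
    rw [Finset.mem_filter, Finset.mem_filter, AtT_w bar cT cU, sym_iff bar hbar, hmS]
    simp only [Finset.mem_univ, true_and, hc]
  have hf1 : f ∈ Submodule.span ℂ {G : (ι → Fin 2) → ℂ |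
      ∃ l : List (ι × ι), IsMat S l ∧ (∀ p ∈ l, s(c p.1, bar (c p.1)) = s(c p.2, bar (c p.2))) ∧ G = prL l} := by
    refine hSL ι (Sym2 X) (fun k => s(c k, bar (c k))) S f ?_ ?_ ?_
    · intro a a' h
      have : w τ a = w τ a' := by
        funext k
        unfold w
        rcases hk : τ k with t | u
        · have : a k = a' k := h k ((hmS k).2 (by rw [hk]; rfl))
          simp [this]
        · rfl
      simp only [hf, this]
    · intro a ha y
      by_cases hy : ∃ k0 : ι, s(c k0, bar (c k0)) = y
      · obtain ⟨k0, rfl⟩ := hy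
        rw [hset, hset]
        exact hF.pos (w τ a) ha (c k0)
      · rw [Finset.filter_false_of_mem, Finset.filter_false_of_mem]
        · exact fun k _ h => hy ⟨k, h.2⟩
        · exact fun k _ h => hy ⟨k, h.2⟩
    · intro y p q hpq a
      by_cases hy : ∃ k0 : ι, s(c k0, bar (c k0)) = y
      · obtain ⟨k0, rfl⟩ := hy
        rw [hset]
        have h1 := hF.mov (c k0) p q hpq (w τ a)
        rw [← h1]
        refine Finset.sum_congr rfl fun k hk => ?_
        have hk1 := ((AtT_w bar cT cU τ a p (c k0) k).1 (Finset.mem_filter.1 hk).2).1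
        simp only [hf]
        rw [w_upd τ a q k hk1]
      · rw [Finset.filter_false_of_mem, Finset.sum_empty]
        exact fun k _ h => hy ⟨k, h.2⟩
  -- colours
  have hcolT : ∀ x, (S.filter fun k => c k = x).card = (S.filter fun k => c k = bar x).card := by
    intro x
    have h1 := hF.colT (w τ a0) ha0 x
    have h2 : ∀ x, (S.filter fun k => c k = x) = Finset.univ.filter fun k => ColT cT x (w τ a0 k) := by
      intro x
      ext k
      rw [Finset.mem_filter, Finset.mem_filter, hmS, ColT_w cT cU]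
      simp only [Finset.mem_univ, true_and, hc]
    rw [h2, h2, h1]
  have hcolU : ∀ x, (Sᶜ.filter fun k => c k = x).card = (Sᶜ.filter fun k => c k = bar x).card := by
    intro x
    have h1 := hF.colU (w τ a0) ha0 x
    have h2 : ∀ x, (Sᶜ.filter fun k => c k = x) = Finset.univ.filter fun k => ColU cU x (w τ a0 k) := by
      intro x
      ext k
      rw [Finset.mem_filter, Finset.mem_filter, Finset.mem_compl, hmS, ColU_w cT cU]
      simp only [Finset.mem_univ, true_and, hc]
    rw [h2, h2, h1]
  have hf2 : f ∈ Submodule.span ℂ {G : (ι → Fin 2) → ℂ |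
      ∃ l : List (ι × ι), IsMat S l ∧ (∀ p ∈ l, c p.2 = bar (c p.1)) ∧ G = prL l} := by
    refine (Submodule.span_le.2 ?_) hf1
    rintro _ ⟨l, hl, hp, rfl⟩
    refine hREP ι X bar c S l hbar hl (fun p hpl => ?_) hcolT
    have := (sym_iff bar hbar _ _).1 (hp p hpl)
    rcases this with h | h
    · exact Or.inl h.symm
    · right; rw [h, hbar]
  obtain ⟨l1, hl1, hl1c⟩ := hLIN ι X bar c Sᶜ hbar (by
    intro k hk
    rw [Finset.mem_compl, hmS] at hk
    simp only [hc]
    rcases hτ : τ k with t | u
    · rw [hτ] at hk; simp at hk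
    · exact hfix u) hcolU
  have hmap : Submodule.map (Phi τ) (Submodule.span ℂ {G : (ι → Fin 2) → ℂ |
      ∃ l : List (ι × ι), IsMat S l ∧ (∀ p ∈ l, c p.2 = bar (c p.1)) ∧ G = prL l}) ≤ N := by
    rw [Submodule.map_span_le]
    rintro _ ⟨l, hl, hlc, rfl⟩
    have hL : IsMat (Finset.univ : Finset ι) (l ++ l1) := by
      have hs : supp (l ++ l1) = supp l ++ supp l1 := by simp [supp, List.flatMap_append]
      refine ⟨?_, fun k => ?_⟩
      · rw [hs, List.nodup_append']
        refine ⟨hl.1, hl1.1, ?_⟩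
        intro k hk hk1
        have h1 := (hl.2 k).1 hk
        have h2 := (hl1.2 k).1 hk1
        exact (Finset.mem_compl.1 h2) h1
      · rw [hs, List.mem_append, hl.2, hl1.2, Finset.mem_compl]
        simp only [Finset.mem_univ, iff_true]
        exact em _
    obtain ⟨h, e, he⟩ := hEQV ι m (l ++ l1) hcard hL
    subst h
    refine Submodule.subset_span ⟨e, fun i => dd (τ (e (i, 0))) (τ (e (i, 1))), fun i => ?_, fun I => ?_⟩
    · have hi := he i
      have hmem : (l ++ l1).get (i.cast rfl) ∈ l ++ l1 := List.get_mem _ _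
      set p := (l ++ l1).get (i.cast rfl) with hp
      change IsDl bar cT cU (dd (τ (e (i, 0))) (τ (e (i, 1))))
      rw [hi.1, hi.2]
      rcases List.mem_append.1 hmem with hm | hm
      · left
        have h1 : p.1 ∈ S := (hl.2 _).1 (mem_supp hm).1
        have h2 : p.2 ∈ S := (hl.2 _).1 (mem_supp hm).2
        have h3 := hlc p hm
        rw [hmS] at h1 h2
        simp only [hc] at h3
        rcases e1 : τ p.1 with t | u
        · rcases e2 : τ p.2 with t' | u'
          · rw [e1, e2] at h3
            exact ⟨t, t', h3, rfl⟩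
          · rw [e2] at h2; simp at h2
        · rw [e1] at h1; simp at h1
      · right
        have h1 : p.1 ∈ Sᶜ := (hl1.2 _).1 (mem_supp hm).1
        have h2 : p.2 ∈ Sᶜ := (hl1.2 _).1 (mem_supp hm).2
        have h3 := hl1c p hm
        rw [Finset.mem_compl, hmS] at h1 h2
        simp only [hc] at h3
        rcases e1 : τ p.1 with t | u
        · rw [e1] at h1; simp at h1
        · rcases e2 : τ p.2 with t' | u'
          · rw [e2] at h2; simp at h2
          · rw [e1, e2] at h3
            exact ⟨u, u', h3, rfl⟩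
    · have hprod : ∏ i : Fin (l ++ l1).length, dd (τ (e (i, 0))) (τ (e (i, 1))) (I (e (i, 0))) (I (e (i, 1))) =
          ((l ++ l1).map fun p => dd (τ p.1) (τ p.2) (I p.1) (I p.2)).prod := by
        rw [← Fin.prod_univ_fun_getElem]
        refine Finset.prod_congr rfl fun i _ => ?_
        have hi := he i
        rw [hi.1, hi.2]
        rfl
      rw [hprod]
      change (if _ then _ else _) = _
      split_ifs with hty
      · rw [List.map_append, List.prod_append]
        have h1 : (l1.map fun p => dd (τ p.1) (τ p.2) (I p.1) (I p.2)).prod = 1 := by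
          apply List.prod_eq_one
          intro x hx
          obtain ⟨p, hp, rfl⟩ := List.mem_map.1 hx
          have h1 : p.1 ∈ Sᶜ := (hl1.2 _).1 (mem_supp hp).1
          have h2 : p.2 ∈ Sᶜ := (hl1.2 _).1 (mem_supp hp).2
          rw [Finset.mem_compl, hmS] at h1 h2
          exact dd_U _ _ _ _ (congrFun hty _) (congrFun hty _) h1 h2
        rw [h1, mul_one]
        unfold prL
        congr 1
        apply List.map_congr_left
        intro p hp
        have h1 : p.1 ∈ S := (hl.2 _).1 (mem_supp hp).1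
        have h2 : p.2 ∈ S := (hl.2 _).1 (mem_supp hp).2
        rw [hmS] at h1 h2
        exact (dd_T _ _ _ _ (congrFun hty _) (congrFun hty _) h1 h2).symm
      · symm
        obtain ⟨k, hk⟩ := Function.ne_iff.1 hty
        have hks : k ∈ supp (l ++ l1) := (hL.2 k).2 (Finset.mem_univ k)
        obtain ⟨p, hp, hpk⟩ := of_mem_supp hks
        apply List.prod_eq_zero
        refine List.mem_map.2 ⟨p, hp, ?_⟩
        apply dd_ne
        rcases hpk with h | h
        · left; rw [← h]; exact hk
        · right; rw [← h]; exact hk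
  exact hmap (Submodule.mem_map_of_mem hf2)

end Pool.Agent.Run7.h862.PL.WORD
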